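import Mathlib
import Pool.Agent.Q288.BRW.Final

/-! # Competing branching random walks with equal shapes need not coexist -/

set_option autoImplicit false

namespace Pool.Agent.Results.MP_1cd8c4_pr.EqualShapesNoCoexist

open MeasureTheory Q288.BRW

theorem exists_colouring {d : ℕ} (hd : 0 < d) : ∃ col, IsColouring hd col := by
  classical
  refine ⟨fun ω x => if h : ∃ n, Hit 0 ω.1 x n ∨ Hit (e₁ hd) ω.2 x n then
    (if Hit 0 ω.1 x (Nat.find h) then some Colour.red else some Colour.blue) else none, ?_, ?_, ?_, ?_⟩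
  · intro ω x n h1 h2
    have h : ∃ n, Hit 0 ω.1 x n ∨ Hit (e₁ hd) ω.2 x n := ⟨n, Or.inl h1⟩
    simp only [dif_pos h]
    rw [if_pos]
    exact (Nat.find_spec h).resolve_right (h2 _ (Nat.find_min' h (Or.inl h1)))
  · intro ω x n h1 h2
    have h : ∃ n, Hit 0 ω.1 x n ∨ Hit (e₁ hd) ω.2 x n := ⟨n, Or.inr h1⟩
    simp only [dif_pos h]
    rw [if_neg (h2 _ (Nat.find_min' h (Or.inr h1)))]
  · intro ω x h1
    have h : ¬ ∃ n, Hit 0 ω.1 x n ∨ Hit (e₁ hd) ω.2 x n := by
      rintro ⟨n, h | h⟩
      · exact (h1 n).1 h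
      · exact (h1 n).2 h
    simp only [dif_neg h]
  · intro ω x n h1 _
    have h : ∃ n, Hit 0 ω.1 x n ∨ Hit (e₁ hd) ω.2 x n := ⟨n, Or.inl h1⟩
    simp only [dif_pos h]
    split_ifs <;> simp

/-- There are two reproduction laws on `ℤ` with the same asymptotic shape such that, for every
tie-breaking rule, the two-type process started from a red particle at `0` and a blue particle at
`e₁` almost surely does not have coexistence. -/
theorem result : ∃ (Rr Rb : ReproLaw 1) (A : Set (Fin 1 → ℝ)), IsShape Rr A ∧ IsShape Rb A ∧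
    (∃ col, IsColouring one_pos col) ∧
    ∀ col, IsColouring one_pos col → ∀ᵐ ω ∂(twoLaw Rr Rb), ¬ Coexist (col ω) :=
  ⟨law1 3 (by norm_num), law1 2 le_rfl, AA, isShape_of 3 (by norm_num) spd_three,
    isShape_of 2 le_rfl spd_two, exists_colouring _, fun col hcol => no_coexist col hcol⟩

end Pool.Agent.Results.MP_1cd8c4_pr.EqualShapesNoCoexist
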